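import Pool.Agent.Lib.TATE.TO.Spec

/-!
# Local branches of the curve and local integrals (proof of `S_Br`)
-/

set_option autoImplicit false

open Topology Metric HC HC.CC SEJ

noncomputable section

namespace TATE.TO.Br_aux

/-- A local branch of the `m`-th root. -/
theorem root (m : ℕ) (hm : m ≠ 0) (f : ℂ → ℂ) (hf : Differentiable ℂ f) (c y₀ : ℂ)
    (hc : y₀ ^ m = f c) (h0 : f c ≠ 0) :
    ∃ ε > 0, ∃ η : ℂ → ℂ, η c = y₀ ∧ DifferentiableOn ℂ η (ball c ε) ∧
      ∀ x ∈ ball c ε, η x ^ m = f x ∧ f x ≠ 0 := by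
  have hcont : ContinuousAt (fun x => f x / f c) c := (hf.continuous.div_const _).continuousAt
  have h1 : f c / f c = 1 := div_self h0
  have hev : ∀ᶠ x in 𝓝 c, f x / f c ∈ ball (1 : ℂ) 1 := by
    have := hcont (ball_mem_nhds (f c / f c) one_pos)
    rw [h1] at this
    exact this
  obtain ⟨ε, hε, hball⟩ := Metric.eventually_nhds_iff_ball.1 hev
  refine ⟨ε, hε, fun x => y₀ * (f x / f c) ^ ((m : ℂ)⁻¹), ?_, ?_, ?_⟩
  · show y₀ * (f c / f c) ^ ((m : ℂ)⁻¹) = y₀
    rw [h1, Complex.one_cpow, mul_one]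
  · intro x hx
    have hs : f x / f c ∈ Complex.slitPlane := by
      have h2 := hball x hx
      rw [mem_ball, dist_eq_norm] at h2
      have h3 := Complex.mem_slitPlane_of_norm_lt_one h2
      simpa using h3
    have hd : DifferentiableAt ℂ (fun x => f x / f c) x := (hf x).div_const _
    exact ((differentiableAt_const y₀).mul
      (hd.cpow (differentiableAt_const _) hs)).differentiableWithinAt
  · intro x hx
    have h2 := hball x hx
    refine ⟨?_, ?_⟩
    · show (y₀ * (f x / f c) ^ ((m : ℂ)⁻¹)) ^ m = f x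
      rw [mul_pow, Complex.cpow_nat_inv_pow _ hm, hc]
      field_simp
    · intro h
      rw [h, zero_div, mem_ball, dist_eq_norm] at h2
      simp at h2

/-- Primitives. -/
theorem prim {ι : Type} [Finite ι] (c : ℂ) (ε : ℝ) (g : ι → ℂ → ℂ)
    (hg : ∀ p, DifferentiableOn ℂ (g p) (ball c ε)) :
    ∃ V : ℂ → ι → ℂ, V c = 0 ∧ ∀ x ∈ ball c ε, HasDerivAt V (fun p => g p x) x := by
  cases nonempty_fintype ι
  have h1 : ∀ p, ∃ G : ℂ → ℂ, G c = 0 ∧ ∀ x ∈ ball c ε, HasDerivAt G (g p x) x := fun p =>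
    ((hg p).isExactOn_ball).with_val_at c 0
  choose G hG using h1
  refine ⟨fun x p => G p x, ?_, ?_⟩
  · funext p
    exact (hG p).1
  · intro x hx
    rw [hasDerivAt_pi]
    intro p
    exact (hG p).2 x hx

/-- Points of the segment. -/
theorem seg_mem (c x : ℂ) (ε : ℝ) (hx : x ∈ ball c ε) (u : ℝ) (h0 : 0 ≤ u) (h1 : u ≤ 1) :
    c + u * (x - c) ∈ ball c ε := by
  rw [mem_ball, dist_eq_norm] at hx ⊢
  have h2 : c + u * (x - c) - c = u * (x - c) := by ring
  rw [h2, norm_mul, Complex.norm_real, Real.norm_eq_abs, abs_of_nonneg h0]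
  have h3 : 0 ≤ ‖x - c‖ := norm_nonneg _
  calc u * ‖x - c‖ ≤ 1 * ‖x - c‖ := mul_le_mul_of_nonneg_right h1 h3
    _ = ‖x - c‖ := one_mul _
    _ < ε := hx

/-- The integral along the segment. -/
theorem ftc (c : ℂ) (ε : ℝ) (F g : ℂ → ℂ) (hF : ∀ x ∈ ball c ε, HasDerivAt F (g x) x)
    (hg : ContinuousOn g (ball c ε)) (hc : F c = 0) (x : ℂ) (hx : x ∈ ball c ε) :
    ∫ u in (0 : ℝ)..1, (x - c) * g (c + u * (x - c)) = F x := by
  have hline : ∀ u : ℝ, HasDerivAt (fun v : ℝ => c + (v : ℂ) * (x - c)) (x - c) u := by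
    intro u
    have h1 : HasDerivAt (fun v : ℝ => (v : ℂ)) 1 u := Complex.ofRealCLM.hasDerivAt
    have h2 := (h1.mul_const (x - c)).const_add c
    rwa [one_mul] at h2
  have hcl : Continuous fun v : ℝ => c + (v : ℂ) * (x - c) := by fun_prop
  have hI := intervalIntegral.integral_eq_sub_of_hasDerivAt
    (a := 0) (b := 1) (f := fun u : ℝ => F (c + u * (x - c)))
    (f' := fun u : ℝ => (x - c) * g (c + u * (x - c))) (fun u hu => by
      rw [Set.uIcc_of_le zero_le_one] at hu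
      have hm := seg_mem c x ε hx u hu.1 hu.2
      have h3 := (hF _ hm).comp_of_eq u (hline u) rfl
      rw [mul_comm] at h3
      exact h3) (by
      apply ContinuousOn.intervalIntegrable
      rw [Set.uIcc_of_le zero_le_one]
      apply continuousOn_const.mul
      exact hg.comp hcl.continuousOn fun u hu => seg_mem c x ε hx u hu.1 hu.2)
  rw [hI]
  have e1 : c + ((1 : ℝ) : ℂ) * (x - c) = x := by
    push_cast
    ring
  have e0 : c + ((0 : ℝ) : ℂ) * (x - c) = c := by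
    push_cast
    ring
  show F (c + ((1 : ℝ) : ℂ) * (x - c)) - F (c + ((0 : ℝ) : ℂ) * (x - c)) = F x
  rw [e1, e0, hc, sub_zero]

/-- Uniqueness of the branch. -/
theorem uniq (m : ℕ) (hm : m ≠ 0) (f η : ℂ → ℂ) (c y₀ : ℂ) (h0 : y₀ ≠ 0) (hc : η c = y₀)
    (hη : ContinuousAt η c) (hr : ∀ᶠ x in 𝓝 c, η x ^ m = f x) :
    ∀ᶠ q in 𝓝 ((c, y₀) : ℂ × ℂ), q.2 ^ m = f q.1 → q.2 = η q.1 := by
  classical
  have hfin : {ξ : ℂ | ξ ^ m = 1 ∧ ξ ≠ 1}.Finite := by
    have h1 : {ξ : ℂ | ξ ^ m = 1}.Finite := by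
      have h2 : {ξ : ℂ | ξ ^ m = 1} ⊆ ((Polynomial.nthRoots m (1 : ℂ)).toFinset : Set ℂ) := by
        intro ξ hξ
        rw [Finset.mem_coe, Multiset.mem_toFinset, Polynomial.mem_nthRoots (Nat.pos_of_ne_zero hm)]
        exact hξ
      exact (Finset.finite_toSet _).subset h2
    exact h1.subset fun ξ hξ => hξ.1
  have hopen : {ξ : ℂ | ξ ^ m = 1 ∧ ξ ≠ 1}ᶜ ∈ 𝓝 (1 : ℂ) :=
    hfin.isClosed.isOpen_compl.mem_nhds fun h => h.2 rfl
  have hηc : ContinuousAt (fun q : ℂ × ℂ => η q.1) (c, y₀) :=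
    ContinuousAt.comp_of_eq hη continuousAt_fst rfl
  have hq : ContinuousAt (fun q : ℂ × ℂ => q.2 / η q.1) (c, y₀) := by
    apply ContinuousAt.div continuousAt_snd hηc
    show η c ≠ 0
    rw [hc]
    exact h0
  have hv : (fun q : ℂ × ℂ => q.2 / η q.1) (c, y₀) = 1 := by
    show y₀ / η c = 1
    rw [hc, div_self h0]
  have hq' : Filter.Tendsto (fun q : ℂ × ℂ => q.2 / η q.1) (𝓝 (c, y₀)) (𝓝 1) := by
    have h7 := hq.tendsto
    have h8 : ((c, y₀) : ℂ × ℂ).2 / η ((c, y₀) : ℂ × ℂ).1 = 1 := hv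
    rwa [h8] at h7
  have e1 := hq' hopen
  have e2 : ∀ᶠ q in 𝓝 ((c, y₀) : ℂ × ℂ), η q.1 ^ m = f q.1 :=
    (continuousAt_fst (p := ((c, y₀) : ℂ × ℂ))).eventually hr
  have e3 : ∀ᶠ q in 𝓝 ((c, y₀) : ℂ × ℂ), η q.1 ≠ 0 := by
    apply hηc.eventually_ne
    show η c ≠ 0
    rw [hc]
    exact h0
  filter_upwards [e1, e2, e3] with q h1 h2 h3 h4
  have h5 : (q.2 / η q.1) ^ m = 1 := by
    rw [div_pow, h4, h2, div_self]
    rw [← h2]
    exact pow_ne_zero _ h3
  by_contra hne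
  apply h1
  refine ⟨h5, fun h6 => hne ?_⟩
  rw [div_eq_one_iff_eq h3] at h6
  exact h6

/-- The forms along a branch. -/
theorem om_diff (m : ℕ) {r : ℕ} (b : Fin (r + 1) → ℕ) (t : Fin (r + 1) → ℂ) (c : ℂ) (ε : ℝ)
    (η : ℂ → ℂ) (hη : DifferentiableOn ℂ η (ball c ε)) (hn : ∀ x ∈ ball c ε, x ∉ Set.range t)
    (p : Ix m b) : DifferentiableOn ℂ (fun x => om m b t (x, η x) p) (ball c ε) := by
  intro x hx
  have hne : ∀ j, x - t j ≠ 0 := fun j h => hn x hx ⟨j, (sub_eq_zero.1 h).symm⟩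
  have hden : ∏ j, (x - t j) ^ (1 + ch p * b j / m) ≠ 0 :=
    Finset.prod_ne_zero_iff.2 fun j _ => pow_ne_zero _ (hne j)
  have hη' : DifferentiableWithinAt ℂ η (ball c ε) x := hη x hx
  have hd : DifferentiableWithinAt ℂ (fun x => ∏ j, (x - t j) ^ (1 + ch p * b j / m))
      (ball c ε) x := by
    apply DifferentiableAt.differentiableWithinAt
    fun_prop
  have hnum : DifferentiableWithinAt ℂ (fun x => x ^ ex p * η x ^ ch p) (ball c ε) x :=
    (differentiableWithinAt_id.pow _).mul (hη'.pow _)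
  exact hnum.div hd hden

end TATE.TO.Br_aux

namespace TATE.TO

open Br_aux

/-- **Br**. -/
theorem tBr : S_Br := by
  intro m r b t hb ht P hP
  obtain ⟨hm3, hdv, -, -⟩ := hb
  have hm : m ≠ 0 := by omega
  have hb0 : ∀ j, b j ≠ 0 := fun j h => hdv j (by rw [h]; exact dvd_zero m)
  let f : ℂ → ℂ := fun x => ∏ j, (x - t j) ^ b j
  have hf : Differentiable ℂ f := by
    show Differentiable ℂ fun x => ∏ j, (x - t j) ^ b j
    fun_prop
  have hPn : P.1 ∉ Set.range t := hP.1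
  have hPe : P.2 ^ m = f P.1 := hP.2
  have hfP : f P.1 ≠ 0 :=
    Finset.prod_ne_zero_iff.2 fun j _ =>
      pow_ne_zero _ fun h => hPn ⟨j, (sub_eq_zero.1 h).symm⟩
  have hP2 : P.2 ≠ 0 := by
    intro h
    rw [h, zero_pow hm] at hPe
    exact hfP hPe.symm
  obtain ⟨ε₁, hε₁, η, hηP, hηd, hηr⟩ := root m hm f hf P.1 P.2 hPe hfP
  have hpts : ∀ x ∈ ball P.1 ε₁, (x, η x) ∈ Pts m b t := by
    intro x hx
    obtain ⟨h1, h2⟩ := hηr x hx
    refine ⟨?_, h1⟩
    rintro ⟨j, hj⟩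
    exact (pow_ne_zero_iff (hb0 j)).1 (Finset.prod_ne_zero_iff.1 h2 j (Finset.mem_univ j))
      (sub_eq_zero.2 hj.symm)
  have hηc : ContinuousAt η P.1 :=
    hηd.continuousOn.continuousAt (isOpen_ball.mem_nhds (mem_ball_self hε₁))
  have hev := uniq m hm f η P.1 P.2 hP2 hηP hηc
    (Filter.mem_of_superset (ball_mem_nhds P.1 hε₁) fun x hx => (hηr x hx).1)
  obtain ⟨ε₂, hε₂, hu⟩ := Metric.eventually_nhds_iff.1 hev
  have homd : ∀ p : Ix m b, DifferentiableOn ℂ (fun x => om m b t (x, η x) p) (ball P.1 ε₁) :=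
    fun p => om_diff m b t P.1 ε₁ η hηd (fun x hx => (hpts x hx).1) p
  obtain ⟨V, hV0, hV⟩ := prim P.1 ε₁ (fun (p : Ix m b) x => om m b t (x, η x) p) homd
  have hV' : ∀ x ∈ ball P.1 ε₁, HasDerivAt V (om m b t (x, η x)) x := fun x hx => hV x hx
  refine ⟨min ε₁ ε₂, η, V, lt_min hε₁ hε₂, hηP,
    hηd.mono (ball_subset_ball (min_le_left _ _)), hV0, ?_, ?_⟩
  · intro x hx
    have hx1 : x ∈ ball P.1 ε₁ := ball_subset_ball (min_le_left _ _) hx
    refine ⟨hpts x hx1, hV' x hx1, ?_⟩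
    have hseg : Seg m b t P (x, η x) (V x) := by
      refine ⟨fun u => η (P.1 + ((max 0 (min 1 u) : ℝ) : ℂ) * (x - P.1)), ?_, ?_, ?_, ?_, ?_⟩
      · apply hηd.continuousOn.comp_continuous
        · fun_prop
        · intro u
          exact seg_mem P.1 x ε₁ hx1 _ (le_max_left _ _) (max_le zero_le_one (min_le_left _ _))
      · show η (P.1 + ((max 0 (min 1 0) : ℝ) : ℂ) * (x - P.1)) = P.2
        rw [min_eq_right (zero_le_one : (0 : ℝ) ≤ 1), max_self, Complex.ofReal_zero, zero_mul,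
          add_zero, hηP]
      · show η (P.1 + ((max 0 (min 1 1) : ℝ) : ℂ) * (x - P.1)) = η x
        rw [min_self, max_eq_right (zero_le_one : (0 : ℝ) ≤ 1), Complex.ofReal_one, one_mul]
        congr 1
        ring
      · intro u hu
        have hcl : max 0 (min 1 u) = u := by
          rw [min_eq_right hu.2, max_eq_right hu.1]
        show (P.1 + (u : ℂ) * (x - P.1), η (P.1 + ((max 0 (min 1 u) : ℝ) : ℂ) * (x - P.1))) ∈
          Pts m b t
        rw [hcl]
        exact hpts _ (seg_mem P.1 x ε₁ hx1 u hu.1 hu.2)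
      · intro p
        have h1 := ftc P.1 ε₁ (fun z => V z p) (fun z => om m b t (z, η z) p)
          (fun z hz => (hasDerivAt_pi.1 (hV' z hz)) p) (homd p).continuousOn
          (congrFun hV0 p) x hx1
        rw [← h1]
        apply intervalIntegral.integral_congr
        intro u hu
        rw [Set.uIcc_of_le zero_le_one] at hu
        have hcl : max 0 (min 1 u) = u := by
          rw [min_eq_right hu.2, max_eq_right hu.1]
        show (x - P.1) * om m b t (P.1 + (u : ℂ) * (x - P.1),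
            η (P.1 + (u : ℂ) * (x - P.1))) p =
          (x - P.1) * om m b t (P.1 + (u : ℂ) * (x - P.1),
            η (P.1 + ((max 0 (min 1 u) : ℝ) : ℂ) * (x - P.1))) p
        rw [hcl]
    have h2 := Itg.step (Itg.refl P hP) hseg
    rwa [zero_add] at h2
  · intro q hq hqP
    exact hu (lt_of_lt_of_le hqP (min_le_right _ _)) hq.2

end TATE.TO
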