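import Pool.Agent.Lib.TATE.TO.Spec

/-!
# PROJECT TATE, package TO: countably many solutions
-/

set_option autoImplicit false

open Topology Metric HC HC.CC SEJ

noncomputable section

namespace TATE.TO

namespace Cnt_aux

/-- small images of lattice vectors are zero -/
theorem small {n : Type} [Fintype n] (T : AV) (κ : T.V ≃ₗ[ℂ] (n → ℂ)) :
    ∃ ε > 0, ∀ l, In T l → ‖κ l‖ < ε → l = 0 := by
  have hd : DiscreteTopology T.L := inferInstance
  obtain ⟨δ, hδ, hδ'⟩ : ∃ δ > 0, ∀ l ∈ T.L, ‖l‖ < δ → l = 0 := by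
    have h1 : ({0} : Set T.L) ∈ 𝓝 (0 : T.L) := (isOpen_discrete _).mem_nhds rfl
    obtain ⟨δ, hδ, hs⟩ := Metric.mem_nhds_iff.1 h1
    refine ⟨δ, hδ, fun l hl hl' => ?_⟩
    have h2 : (⟨l, hl⟩ : T.L) ∈ ball (0 : T.L) δ := by
      rw [mem_ball, dist_zero_right]
      exact hl'
    have h3 : (⟨l, hl⟩ : T.L) = 0 := hs h2
    exact congrArg Subtype.val h3
  let κ' : (n → ℂ) →L[ℂ] T.V := LinearMap.toContinuousLinearMap (κ.symm : (n → ℂ) →ₗ[ℂ] T.V)
  refine ⟨δ / (‖κ'‖ + 1), by positivity, fun l hl hl' => hδ' l hl ?_⟩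
  have h1 : κ' (κ l) = l := κ.symm_apply_apply l
  have h2 : ‖κ' (κ l)‖ ≤ ‖κ'‖ * ‖κ l‖ := κ'.le_opNorm _
  rw [h1] at h2
  rw [lt_div_iff₀ (by positivity)] at hl'
  have h3 : ‖κ'‖ * ‖κ l‖ ≤ ‖κ l‖ * (‖κ'‖ + 1) := by
    have := norm_nonneg (κ l)
    nlinarith
  linarith

end Cnt_aux

open Cnt_aux in
theorem tCnt : S_Inv → S_Cnt := by
  intro hInv T m r t b γ hb ht κ hκ w
  obtain ⟨ε, hε, hL⟩ := small T κ
  set S : Set (Fin (Fintype.card (Ix m b)) → ℂ × ℂ) :=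
    {P | Ind m b t P ∧ In T (∑ a, γ.α (P a).1 (P a).2 - w)} with hS
  have hd : DiscreteTopology S := by
    rw [discreteTopology_subtype_iff']
    intro P hP
    obtain ⟨U, hU, hU'⟩ := (hInv m r b t hb ht P hP.1).2 ε hε
    obtain ⟨U₁, h₁, h₂, h₃⟩ := _root_.mem_nhds_iff.1 hU
    refine ⟨U₁, h₂, ?_⟩
    ext P'
    constructor
    · rintro ⟨hPU, hP'⟩
      obtain ⟨w', hw, hw1, hw2⟩ := hU' P' (h₁ hPU) hP'.1.on
      choose l hl hl' using fun a => hκ _ _ _ (hw a)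
      have h4 : ∑ a, w' a = κ ((∑ a, γ.α (P' a).1 (P' a).2 - w) -
          (∑ a, γ.α (P a).1 (P a).2 - w) - ∑ a, l a) := by
        have h5 : ∀ a, w' a = κ (γ.α (P' a).1 (P' a).2) - κ (γ.α (P a).1 (P a).2) - κ (l a) := by
          intro a
          rw [← hl' a, map_sub]
          abel
        rw [Finset.sum_congr rfl fun a _ => h5 a]
        simp only [map_sub, map_sum, Finset.sum_sub_distrib]
        abel
      have h6 : In T ((∑ a, γ.α (P' a).1 (P' a).2 - w) -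
          (∑ a, γ.α (P a).1 (P a).2 - w) - ∑ a, l a) :=
        T.L.sub_mem (T.L.sub_mem hP'.2 hP.2) (T.L.sum_mem fun a _ => hl a)
      rw [h4] at hw1 hw2
      exact hw2 (by rw [hL _ h6 hw1, map_zero])
    · rintro rfl
      exact ⟨h₃, hP⟩
  have : Countable S := countable_of_Lindelof_of_discrete
  exact Set.countable_coe_iff.1 this

end TATE.TO
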