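import Pool.Agent.Lib.TATE.TO.Spec

/-!
# PROJECT TATE, package TORS: independent points are stable
-/

set_option autoImplicit false

open Topology Metric HC HC.CC SEJ

noncomputable section

namespace TATE.TO

namespace Eqv_aux

variable {m r : ℕ} {t : Fin (r + 1) → ℂ} {b : Fin (r + 1) → ℕ} {σ : ℂ ≃+* ℂ}

/-- The conjugate of a point of the curve. -/
theorem pts (ht : ∀ j, σ (t j) = t j) (P : ℂ × ℂ) (hP : P ∈ Pts m b t) :
    (σ P.1, σ P.2) ∈ Pts m b t := by
  obtain ⟨h1, h2⟩ := hP
  constructor
  · rintro ⟨j, hj⟩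
    refine h1 ⟨j, ?_⟩
    apply σ.injective
    rw [ht j]
    exact hj
  · have := congrArg σ h2
    rw [map_pow, map_prod] at this
    simp only [map_pow, map_sub, ht] at this
    exact this

/-- The values of the forms at the conjugate. -/
theorem om_conj (ht : ∀ j, σ (t j) = t j) (P : ℂ × ℂ) (p : Ix m b) :
    om m b t (σ P.1, σ P.2) p = σ (om m b t P p) := by
  unfold om
  rw [map_div₀, map_mul, map_pow, map_pow, map_prod]
  simp only [map_pow, map_sub, ht]

end Eqv_aux

open Eqv_aux in
theorem tEqv : S_Eqv := by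
  intro m r t b σ ht
  refine ⟨fun P hP => pts ht P hP, fun P hP => ⟨fun a => pts ht (P a) (hP.on a), ?_⟩⟩
  have hli := hP.li
  rw [Fintype.linearIndependent_iff] at hli ⊢
  intro c hc a
  have h0 : ∑ a, σ.symm (c a) • om m b t (P a) = 0 := by
    funext p
    have h1 := congrFun hc p
    rw [Finset.sum_apply] at h1 ⊢
    simp only [Pi.smul_apply, smul_eq_mul, Pi.zero_apply] at h1 ⊢
    have h2 := congrArg σ.symm h1
    rw [map_sum, map_zero] at h2
    rw [← h2]
    refine Finset.sum_congr rfl fun a _ => ?_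
    rw [map_mul, om_conj ht, RingEquiv.symm_apply_apply]
  have h3 := hli (fun a => σ.symm (c a)) h0 a
  exact (map_eq_zero σ.symm).1 h3

end TATE.TO
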