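import Pool.Agent.Lib.TATE.TO.Spec

/-!
# PROJECT TATE, package TO: inverse function theorem
-/

set_option autoImplicit false

open Topology Metric HC HC.CC SEJ

noncomputable section

namespace TATE.TO

namespace Inv_aux

variable {n : Type} [Fintype n]

/-- the derivative at the base point -/
def eqv (u : Fin (Fintype.card n) → n → ℂ) (hu : LinearIndependent ℂ u) :
    (Fin (Fintype.card n) → ℂ) ≃L[ℂ] (n → ℂ) :=
  (basisOfLinearIndependentOfCardEqFinrank' u hu
    (by rw [Fintype.card_fin, Module.finrank_fintype_fun_eq_card])).equivFun.symm.toContinuousLinearEquiv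

theorem eqv_apply (u : Fin (Fintype.card n) → n → ℂ) (hu : LinearIndependent ℂ u)
    (h : Fin (Fintype.card n) → ℂ) : eqv u hu h = ∑ a, h a • u a := by
  simp [eqv, Module.Basis.equivFun_symm_apply]

/-- the sum of the local integrals is strictly differentiable -/
theorem strict (u : Fin (Fintype.card n) → n → ℂ) (hu : LinearIndependent ℂ u)
    (x₀ : Fin (Fintype.card n) → ℂ) (V : Fin (Fintype.card n) → ℂ → n → ℂ)
    (hV : ∀ a, HasStrictDerivAt (V a) (u a) (x₀ a)) :
    HasStrictFDerivAt (fun x : Fin (Fintype.card n) → ℂ => ∑ a, V a (x a))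
      (eqv u hu : (Fin (Fintype.card n) → ℂ) →L[ℂ] (n → ℂ)) x₀ := by
  have h1 : ∀ a, HasStrictFDerivAt (fun x : Fin (Fintype.card n) → ℂ => V a (x a))
      ((ContinuousLinearMap.toSpanSingleton ℂ (u a)).comp (ContinuousLinearMap.proj a)) x₀ :=
    fun a => (hV a).hasStrictFDerivAt.comp x₀
      (ContinuousLinearMap.proj (R := ℂ) (φ := fun _ : Fin (Fintype.card n) => ℂ)
        a).hasStrictFDerivAt
  have h2 := HasStrictFDerivAt.fun_sum (u := Finset.univ) fun a _ => h1 a
  refine h2.congr_fderiv ?_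
  ext h i
  simp [eqv_apply]

/-- analytic: strict derivative and continuity of the derivative -/
theorem loc {x₀ : ℂ} {ε : ℝ} (hε : 0 < ε) {V : ℂ → n → ℂ} {ω : ℂ → n → ℂ}
    (h : ∀ x ∈ ball x₀ ε, HasDerivAt V (ω x) x) :
    HasStrictDerivAt V (ω x₀) x₀ ∧ ContinuousAt (deriv V) x₀ := by
  have h1 : AnalyticAt ℂ V x₀ :=
    DifferentiableOn.analyticAt (fun x hx => (h x hx).differentiableAt.differentiableWithinAt)
      (ball_mem_nhds x₀ hε)
  refine ⟨?_, h1.deriv.continuousAt⟩
  rw [← (h x₀ (mem_ball_self hε)).deriv]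
  exact h1.hasStrictDerivAt

end Inv_aux

open Inv_aux in
theorem tInv : S_Br → S_Inv := by
  intro hBr m r b t hb ht P hP
  choose ε η V hε hη hηd hV0 hB hq using fun a => hBr m r b t hb ht (P a) (hP.on a)
  set x₀ : Fin (Fintype.card (Ix m b)) → ℂ := fun a => (P a).1 with hx₀
  set G : (Fin (Fintype.card (Ix m b)) → ℂ) → (Ix m b → ℂ) := fun x => ∑ a, V a (x a) with hG
  have hPη : ∀ a, ((P a).1, η a (P a).1) = P a := fun a => by rw [hη a]
  have hloc : ∀ a, HasStrictDerivAt (V a) (om m b t (P a)) (x₀ a) ∧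
      ContinuousAt (deriv (V a)) (x₀ a) := by
    intro a
    have h1 := loc (hε a) (V := V a) (ω := fun x => om m b t (x, η a x))
      fun x hx => (hB a x hx).2.1
    simp only [hPη a] at h1
    exact h1
  have hst : HasStrictFDerivAt G (eqv _ hP.li :
      (Fin (Fintype.card (Ix m b)) → ℂ) →L[ℂ] (Ix m b → ℂ)) x₀ :=
    strict _ hP.li x₀ V fun a => (hloc a).1
  have hG0 : G x₀ = 0 := by
    simp only [hG, hx₀]
    exact Finset.sum_eq_zero fun a _ => hV0 a
  have hballs : ∀ᶠ x in 𝓝 x₀, ∀ a, x a ∈ ball (P a).1 (ε a) :=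
    Filter.eventually_all.2 fun a =>
      (continuous_apply a).continuousAt.eventually (ball_mem_nhds _ (hε a))
  constructor
  · intro v
    have hLI : ∀ᶠ x in 𝓝 x₀, LinearIndependent ℂ fun a => deriv (V a) (x a) := by
      have hc : ContinuousAt (fun (x : Fin (Fintype.card (Ix m b)) → ℂ)
          (a : Fin (Fintype.card (Ix m b))) => deriv (V a) (x a)) x₀ := by
        refine continuousAt_pi.2 fun a => ?_
        exact ContinuousAt.comp (f := fun x : Fin (Fintype.card (Ix m b)) → ℂ => x a)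
          (hloc a).2 (continuous_apply a).continuousAt
      refine hc.eventually (LinearIndependent.eventually ?_)
      have h2 : (fun a => deriv (V a) (x₀ a)) = fun a => om m b t (P a) := by
        funext a
        exact (hloc a).1.hasDerivAt.deriv
      change LinearIndependent ℂ (fun a => deriv (V a) (x₀ a))
      rw [h2]
      exact hP.li
    have hW : G '' {x | (∀ a, x a ∈ ball (P a).1 (ε a)) ∧
        LinearIndependent ℂ fun a => deriv (V a) (x a)} ∈ 𝓝 (0 : Ix m b → ℂ) := by
      rw [← hG0, ← hst.map_nhds_eq_of_equiv]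
      exact Filter.image_mem_map (hballs.and hLI)
    have ht : Filter.Tendsto (fun k : ℕ => ((k : ℂ)⁻¹ • v)) Filter.atTop (𝓝 0) := by
      have h3 := (tendsto_inv_atTop_nhds_zero_nat (𝕜 := ℂ)).smul_const v
      rwa [zero_smul] at h3
    obtain ⟨k, hk, hk1⟩ := ((ht.eventually hW).and (Filter.eventually_ge_atTop 1)).exists
    obtain ⟨x, ⟨hx, hx1⟩, hx2⟩ := hk
    refine ⟨k, fun a => (x a, η a (x a)), fun a => V a (x a), by omega,
      ⟨fun a => (hB a _ (hx a)).1, ?_⟩, fun a => (hB a _ (hx a)).2.2, ?_⟩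
    · have h4 : (fun a => om m b t (x a, η a (x a))) = fun a => deriv (V a) (x a) := by
        funext a
        exact ((hB a _ (hx a)).2.1.deriv).symm
      rw [h4]
      exact hx1
    · have h5 : ∑ a, V a (x a) = (k : ℂ)⁻¹ • v := hx2
      have hk0 : (k : ℂ) ≠ 0 := by
        exact_mod_cast (by omega : k ≠ 0)
      rw [h5, ← Nat.cast_smul_eq_nsmul ℂ, smul_smul, mul_inv_cancel₀ hk0, one_smul]
  · intro δ hδ
    have hsrc : ∀ᶠ x in 𝓝 x₀, x ∈ (hst.toOpenPartialHomeomorph G).source :=
      (hst.toOpenPartialHomeomorph G).open_source.mem_nhds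
        hst.mem_toOpenPartialHomeomorph_source
    have hcont : ∀ᶠ x in 𝓝 x₀, ‖G x‖ < δ := by
      have h1 : ContinuousAt G x₀ := hst.continuousAt
      have h2 := h1.norm
      have h3 : ‖G x₀‖ < δ := by rw [hG0, norm_zero]; exact hδ
      exact h2.eventually_lt continuousAt_const h3
    have hfst : ContinuousAt (fun (Q : Fin (Fintype.card (Ix m b)) → ℂ × ℂ)
        (a : Fin (Fintype.card (Ix m b))) => (Q a).1) P := by
      refine Continuous.continuousAt ?_
      fun_prop
    have hd : ∀ᶠ Q in 𝓝 P, ∀ a, dist (Q a) (P a) < ε a :=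
      Filter.eventually_all.2 fun a =>
        ((continuous_apply a).continuousAt (x := P)).eventually
          (show ∀ᶠ q in 𝓝 (P a), dist q (P a) < ε a from ball_mem_nhds _ (hε a))
    refine ⟨_, (hfst.eventually (hsrc.and hcont)).and hd, ?_⟩
    rintro Q ⟨⟨hs, hc⟩, hdQ⟩ hQ
    have hQ2 : ∀ a, ((Q a).1, η a (Q a).1) = Q a := fun a => by rw [← hq a _ (hQ a) (hdQ a)]
    have hQb : ∀ a, (Q a).1 ∈ ball (P a).1 (ε a) := fun a =>
      lt_of_le_of_lt (le_max_left _ _) (hdQ a)
    refine ⟨fun a => V a (Q a).1, fun a => ?_, hc, fun h0 => ?_⟩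
    · have h6 := (hB a _ (hQb a)).2.2
      rw [hQ2 a] at h6
      exact h6
    · have h7 : (fun a => (Q a).1) = x₀ := by
        refine (hst.toOpenPartialHomeomorph G).injOn hs
          hst.mem_toOpenPartialHomeomorph_source ?_
        rw [hst.toOpenPartialHomeomorph_coe, hG0]
        exact h0
      funext a
      have h8 : (Q a).1 = (P a).1 := congrFun h7 a
      rw [← hQ2 a, ← hPη a, h8]

end TATE.TO
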