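import Pool.Agent.Lib.TATE.TO.Spec

/-!
# PROJECT TATE, package TORS, module Om: the values of the forms span
-/

set_option autoImplicit false

open Topology Metric HC HC.CC SEJ

noncomputable section

namespace TATE.TO

namespace Om_aux

lemma sep {ι : Type} [Fintype ι] (f : ι → ℂ) (hf : Function.Injective f) (v : ι → ℂ)
    (h : ∀ k : ℕ, ∑ i, v i * f i ^ k = 0) (i : ι) : v i = 0 := by
  have h1 := (linearIndependent_monoidHom (Multiplicative ℕ) ℂ).comp
    (fun i => powersHom ℂ (f i)) (fun i j hij => hf (by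
      have := DFunLike.congr_fun hij (Multiplicative.ofAdd 1)
      simpa using this))
  rw [Fintype.linearIndependent_iff] at h1
  refine h1 v ?_ i
  funext k
  have h2 := h k.toAdd
  rw [Finset.sum_apply]
  simpa using h2

variable {m r : ℕ} {b : Fin (r + 1) → ℕ} {t : Fin (r + 1) → ℂ}

lemma prod_ne {x : ℂ} (hx : x ∉ Set.range t) (e : Fin (r + 1) → ℕ) :
    ∏ j, (x - t j) ^ e j ≠ 0 := by
  refine Finset.prod_ne_zero_iff.2 fun j _ => pow_ne_zero _ (sub_ne_zero.2 ?_)
  rintro rfl
  exact hx ⟨j, rfl⟩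

lemma exists_pt (hm : 3 ≤ m) (x : ℂ) (hx : x ∉ Set.range t) :
    ∃ y : ℂ, y ≠ 0 ∧ ∀ k : ℕ,
      (x, Complex.exp (2 * Real.pi * Complex.I / m) ^ k * y) ∈ Pts m b t := by
  obtain ⟨y, hy⟩ := IsAlgClosed.exists_pow_nat_eq (∏ j, (x - t j) ^ b j) (n := m) (by omega)
  have h0 : ∏ j, (x - t j) ^ b j ≠ 0 := prod_ne hx b
  refine ⟨y, ?_, fun k => ⟨hx, ?_⟩⟩
  · rintro rfl
    rw [zero_pow (by omega)] at hy
    exact h0 hy.symm
  · have hp := (Complex.isPrimitiveRoot_exp m (by omega)).pow_eq_one
    change (Complex.exp (2 * Real.pi * Complex.I / m) ^ k * y) ^ m = ∏ j, (x - t j) ^ b j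
    rw [mul_pow, ← pow_mul, mul_comm k m, pow_mul, hp, one_pow, one_mul, hy]

/-- the part of one character vanishes -/
lemma key (hm : 3 ≤ m) (c : Ix m b → ℂ) {x : ℂ} (hx : x ∉ Set.range t)
    (hc : ∀ y, (x, y) ∈ Pts m b t → ∑ p, om m b t (x, y) p * c p = 0) (u : Fin m) :
    ∑ p with p.1.1 = u, c p * x ^ ex p = 0 := by
  obtain ⟨y, hy, hP⟩ := exists_pt (b := b) hm x hx
  have hp := Complex.isPrimitiveRoot_exp m (by omega : m ≠ 0)
  have h1 := sep (fun u : Fin m => Complex.exp (2 * Real.pi * Complex.I / m) ^ (u : ℕ))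
    (fun u v h => Fin.ext (hp.pow_inj u.2 v.2 h))
    (fun u => ∑ p : Ix m b with p.1.1 = u, om m b t (x, y) p * c p) (by
      intro k
      have h2 := hc _ (hP k)
      rw [← Finset.sum_fiberwise Finset.univ (fun p : Ix m b => p.1.1)] at h2
      refine Eq.trans (Finset.sum_congr rfl fun v _ => ?_) h2
      rw [Finset.sum_mul]
      refine Finset.sum_congr rfl fun p hp' => ?_
      have hp1 : (v : ℕ) = ch p := by
        have := (Finset.mem_filter.1 hp').2
        rw [← this]
        rfl
      change om m b t (x, y) p * c p *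
        (Complex.exp (2 * Real.pi * Complex.I / m) ^ (v : ℕ)) ^ k = _
      rw [hp1]
      unfold om
      dsimp only
      rw [mul_pow, ← pow_mul, ← pow_mul, mul_comm k]
      ring) u
  have h3 : ∏ j, (x - t j) ^ (1 + (u : ℕ) * b j / m) ≠ 0 := prod_ne hx _
  have h4 : (∑ p : Ix m b with p.1.1 = u, c p * x ^ ex p) *
      (y ^ (u : ℕ) / ∏ j, (x - t j) ^ (1 + (u : ℕ) * b j / m)) = 0 := by
    rw [Finset.sum_mul]
    refine Eq.trans (Finset.sum_congr rfl fun p hp' => ?_) h1
    have hp1 : (u : ℕ) = ch p := by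
      have := (Finset.mem_filter.1 hp').2
      rw [← this]
      rfl
    rw [hp1]
    unfold om
    ring
  rcases mul_eq_zero.1 h4 with h5 | h5
  · exact h5
  · exact absurd h5 (div_ne_zero (pow_ne_zero _ hy) h3)

end Om_aux

open Om_aux in
/-- Module Om: the values of the forms span. -/
theorem tOm : S_Om := by
  intro m r b t hb ht A hA
  have hm : 3 ≤ m := hb.1
  by_contra hne
  obtain ⟨f, hf0, hf⟩ := Submodule.exists_le_ker_of_lt_top _ (lt_top_iff_ne_top.2 hne)
  refine hf0 ?_
  let c : Ix m b → ℂ := fun p => f (Pi.single p 1)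
  have hfc : ∀ v, f v = ∑ p, v p * c p := by
    intro v
    rw [LinearMap.pi_apply_eq_sum_univ f v]
    refine Finset.sum_congr rfl fun p _ => ?_
    rw [smul_eq_mul]
    congr 2
    funext q
    rw [Pi.single_apply]
    simp only [eq_comm]
  -- the polynomials vanish
  have hz : ∀ p : Ix m b, c p = 0 := by
    intro p
    let Q : Polynomial ℂ := ∑ q : Ix m b with q.1.1 = p.1.1, Polynomial.monomial (ex q) (c q)
    have hQ : Q = 0 := by
      refine Polynomial.eq_zero_of_infinite_isRoot Q ?_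
      refine (hA.sdiff (Set.finite_range t)).mono fun x hx => ?_
      change Polynomial.IsRoot Q x
      rw [Polynomial.IsRoot, Polynomial.eval_finsetSum]
      refine Eq.trans (Finset.sum_congr rfl fun i _ => ?_) (key hm c hx.2 (fun y hy => ?_) p.1.1)
      · rw [Polynomial.eval_monomial]
      · rw [← hfc]
        exact hf (Submodule.subset_span ⟨(x, y), hy, hx.1, rfl⟩)
    have h6 : Q.coeff (ex p) = c p := by
      rw [Polynomial.finsetSum_coeff, Finset.sum_eq_single p]
      · rw [Polynomial.coeff_monomial, if_pos rfl]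
      · intro q hq hqp
        rw [Polynomial.coeff_monomial, if_neg]
        intro h
        exact hqp (Subtype.ext (Prod.ext (Finset.mem_filter.1 hq).2 (Fin.ext h)))
      · intro h
        exact (h (Finset.mem_filter.2 ⟨Finset.mem_univ p, rfl⟩)).elim
    rw [← h6, hQ, Polynomial.coeff_zero]
  refine LinearMap.ext fun v => ?_
  rw [hfc, LinearMap.zero_apply]
  exact Finset.sum_eq_zero fun p _ => by rw [hz p, mul_zero]

end TATE.TO
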