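import Pool.Agent.Lib.TATE.TO.Spec

/-!
# PROJECT TATE, package TORS: rational vectors are exact sums of integrals between algebraic points (helper4)
-/

set_option autoImplicit false

open Topology Metric HC HC.CC SEJ

noncomputable section

namespace TATE.TO

namespace Sum_aux

/-! ### 1. The rational lattice -/

lemma rt_of_in {T : AV} {v : T.V} (h : In T v) : Rt T v :=
  ⟨1, one_ne_zero, by rw [one_smul]; exact h⟩

lemma rt_add {T : AV} {u v : T.V} (hu : Rt T u) (hv : Rt T v) : Rt T (u + v) := by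
  obtain ⟨k, hk, hku⟩ := hu
  obtain ⟨l, hl, hlv⟩ := hv
  refine ⟨k * l, mul_ne_zero hk hl, ?_⟩
  have h : (k * l) • (u + v) = l • (k • u) + k • (l • v) := by
    rw [smul_add, ← mul_smul, ← mul_smul, mul_comm l k]
  rw [h]
  exact T.L.add_mem (T.L.nsmul_mem hku l) (T.L.nsmul_mem hlv k)

lemma rt_cancel {T : AV} {v : T.V} {n : ℕ} (hn : n ≠ 0) (h : Rt T (n • v)) : Rt T v := by
  obtain ⟨k, hk, hkv⟩ := h
  refine ⟨k * n, mul_ne_zero hk hn, ?_⟩
  rw [mul_smul]
  exact hkv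

lemma rt_countable (T : AV) : {u : T.V | Rt T u}.Countable := by
  haveI : ProperSpace T.V := FiniteDimensional.proper ℂ T.V
  haveI : SecondCountableTopology T.V := inferInstance
  haveI : Countable T.L := by
    haveI : TopologicalSpace.SeparableSpace T.L := inferInstance
    exact TopologicalSpace.separableSpace_iff_countable.mp inferInstance
  have h : {u : T.V | Rt T u} ⊆ ⋃ k : ℕ, ⋃ l : T.L, {u : T.V | u = ((k : ℂ)⁻¹) • (l : T.V)} := by
    rintro u ⟨k, hk, hku⟩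
    refine Set.mem_iUnion.mpr ⟨k, Set.mem_iUnion.mpr ⟨⟨k • u, hku⟩, ?_⟩⟩
    change u = ((k : ℂ)⁻¹) • (k • u)
    rw [← Nat.cast_smul_eq_nsmul ℂ k u, smul_smul, inv_mul_cancel₀ (Nat.cast_ne_zero.mpr hk), one_smul]
  refine Set.Countable.mono h ?_
  refine Set.countable_iUnion fun k => Set.countable_iUnion fun l => ?_
  exact (Set.countable_singleton _)

/-! ### 2. The base points -/

/-- From `S_Om`: base points with rational first coordinate. -/
lemma base (hOm : S_Om) (m r : ℕ) (b : Fin (r + 1) → ℕ) (t : Fin (r + 1) → ℂ) (hb : Cvb m b)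
    (ht : Function.Injective t) :
    ∃ P : Fin (Fintype.card (Ix m b)) → ℂ × ℂ, Ind m b t P ∧ ∀ a, ∃ q : ℚ, (P a).1 = (q : ℂ) := by
  classical
  have hA : (Set.range (fun q : ℚ => (q : ℂ))).Infinite :=
    Set.infinite_range_of_injective Rat.cast_injective
  have hs := hOm m r b t hb ht _ hA
  obtain ⟨B, hBs, hBspan, hBli⟩ := exists_linearIndependent ℂ
    {v | ∃ P ∈ Pts m b t, P.1 ∈ Set.range (fun q : ℚ => (q : ℂ)) ∧ v = om m b t P}
  rw [hs] at hBspan
  let bas : Module.Basis B ℂ (Ix m b → ℂ) := Module.Basis.mk hBli (by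
    rw [Subtype.range_coe, hBspan])
  haveI : Fintype B := FiniteDimensional.fintypeBasisIndex bas
  have hcard : Fintype.card B = Fintype.card (Ix m b) := by
    rw [← Module.finrank_eq_card_basis bas, Module.finrank_fintype_fun_eq_card]
  let e : B ≃ Fin (Fintype.card (Ix m b)) := Fintype.equivFinOfCardEq hcard
  choose P hP1 hP2 hP3 using fun v : B => hBs v.2
  refine ⟨fun a => P (e.symm a), ⟨fun a => hP1 _, ?_⟩, fun a => ?_⟩
  · have h2 : (fun a => om m b t (P (e.symm a))) = (fun v : B => (v : Ix m b → ℂ)) ∘ e.symm := by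
      funext a
      exact (hP3 (e.symm a)).symm
    rw [h2]
    exact hBli.comp e.symm e.symm.injective
  · obtain ⟨q, hq⟩ := hP2 (e.symm a)
    exact ⟨q, hq.symm⟩

/-- Elements of the field are algebraic. -/
lemma algO_of_mem {p : ℕ} {s : Fin p → ℂ} {z : ℂ}
    (hz : z ∈ IntermediateField.adjoin ℚ (Set.range s)) : AlgO s z :=
  isAlgebraic_algebraMap (⟨z, hz⟩ : IntermediateField.adjoin ℚ (Set.range s))

lemma rat_mem {p : ℕ} (s : Fin p → ℂ) (q : ℚ) :
    (q : ℂ) ∈ IntermediateField.adjoin ℚ (Set.range s) := by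
  have h := (IntermediateField.adjoin ℚ (Set.range s)).algebraMap_mem q
  exact h

lemma algO_base {p m r : ℕ} {s : Fin p → ℂ} {b : Fin (r + 1) → ℕ} {t : Fin (r + 1) → ℂ}
    (hm : m ≠ 0) (hts : ∀ j, t j ∈ IntermediateField.adjoin ℚ (Set.range s)) {P : ℂ × ℂ}
    (hP : P ∈ Pts m b t) {q : ℚ} (hq : P.1 = (q : ℂ)) : AlgO s P.1 ∧ AlgO s P.2 := by
  refine ⟨by rw [hq]; exact algO_of_mem (rat_mem s q), ?_⟩
  have h1 : P.2 ^ m ∈ IntermediateField.adjoin ℚ (Set.range s) := by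
    rw [hP.2]
    refine prod_mem fun j _ => pow_mem (sub_mem ?_ (hts j)) _
    rw [hq]
    exact rat_mem s q
  exact IsAlgebraic.of_pow (Nat.pos_of_ne_zero hm) (algO_of_mem h1)

/-! ### 3. Automorphisms -/

lemma fix_mem {p : ℕ} {s : Fin p → ℂ} {A : Set ℂ} {σ : ℂ ≃+* ℂ} (hσ : σ ∈ Fix s A) {z : ℂ}
    (hz : z ∈ IntermediateField.adjoin ℚ (Set.range s)) : σ z = z := by
  induction hz using IntermediateField.adjoin_induction with
  | mem x hx =>
    obtain ⟨i, rfl⟩ := hx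
    exact hσ.1 i
  | algebraMap x =>
    change σ ((x : ℚ) : ℂ) = ((x : ℚ) : ℂ)
    exact map_ratCast σ x
  | add x y _ _ hx hy => rw [map_add, hx, hy]
  | inv x _ hx => rw [map_inv₀, hx]
  | mul x y _ _ hx hy => rw [map_mul, hx, hy]

/-- The difference of the values of `α`. -/
lemma stab {T : AV} {m r : ℕ} {Z : T.V → T.V} {t : Fin (r + 1) → ℂ} {b : Fin (r + 1) → ℕ}
    {γ : Cur T} (hγ : IsMp T m Z t b γ) {p : ℕ} {s : Fin p → ℂ} {A : Set ℂ} (hmod : IsMod s γ A)
    {σ : ℂ ≃+* ℂ} (hσ : σ ∈ Fix s A) {g : ℕ} {P P' : Fin g → ℂ × ℂ}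
    (hP : ∀ a, P a ∈ Pts m b t) (hP' : ∀ a, P' a ∈ Pts m b t)
    (hσP' : ∀ a, (σ (P' a).1, σ (P' a).2) ∈ Pts m b t)
    (hσP : ∀ a, σ (P a).1 = (P a).1 ∧ σ (P a).2 = (P a).2)
    (h : Rt T (∑ a, (γ.α (P' a).1 (P' a).2 - γ.α (P a).1 (P a).2))) :
    Rt T (∑ a, (γ.α (σ (P' a).1) (σ (P' a).2) - γ.α (P a).1 (P a).2)) := by
  have key : ∀ R ∈ Pts m b t, R.1 ∉ γ.S ∧ γ.P (R.1, R.2) = 0 := by
    intro R hR
    refine ⟨?_, ?_⟩
    · rw [hγ.S]
      exact hR.1
    · rw [hγ.P, hR.2, sub_self]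
  obtain ⟨k, hk, hkv⟩ := h
  refine ⟨k, hk, ?_⟩
  refine hmod σ hσ _ _ ⟨g + g, Fin.append (fun _ => (k : ℤ)) (fun _ => -(k : ℤ)),
    Fin.append (fun a => (P' a).1) (fun a => (P a).1),
    Fin.append (fun a => (P' a).2) (fun a => (P a).2), ?_, ?_, ?_, ?_⟩ hkv
  · rw [Fin.sum_univ_add]
    simp only [Fin.append_left, Fin.append_right, Finset.sum_const, smul_neg, add_neg_cancel]
  · intro i
    refine Fin.addCases (fun a => ?_) (fun a => ?_) i
    · simp only [Fin.append_left]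
      exact ⟨(key _ (hP' a)).1, (key _ (hP' a)).2, (key _ (hσP' a)).1, (key _ (hσP' a)).2⟩
    · simp only [Fin.append_right]
      rw [(hσP a).1, (hσP a).2]
      exact ⟨(key _ (hP a)).1, (key _ (hP a)).2, (key _ (hP a)).1, (key _ (hP a)).2⟩
  · have h0 : k • ∑ a, (γ.α (P' a).1 (P' a).2 - γ.α (P a).1 (P a).2) -
        ∑ i, (Fin.append (fun _ : Fin g => (k : ℤ)) (fun _ : Fin g => -(k : ℤ)) i) •
          γ.α (Fin.append (fun a => (P' a).1) (fun a => (P a).1) i)
            (Fin.append (fun a => (P' a).2) (fun a => (P a).2) i) = 0 := by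
      rw [Fin.sum_univ_add]
      simp only [Fin.append_left, Fin.append_right, neg_smul, natCast_zsmul,
        Finset.sum_neg_distrib, ← Finset.smul_sum, Finset.sum_sub_distrib, smul_sub]
      abel
    rw [h0]
    exact T.L.zero_mem
  · have h0 : k • ∑ a, (γ.α (σ (P' a).1) (σ (P' a).2) - γ.α (P a).1 (P a).2) -
        ∑ i, (Fin.append (fun _ : Fin g => (k : ℤ)) (fun _ : Fin g => -(k : ℤ)) i) •
          γ.α (σ (Fin.append (fun a => (P' a).1) (fun a => (P a).1) i))
            (σ (Fin.append (fun a => (P' a).2) (fun a => (P a).2) i)) = 0 := by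
      rw [Fin.sum_univ_add]
      simp only [Fin.append_left, Fin.append_right, neg_smul, natCast_zsmul,
        Finset.sum_neg_distrib, ← Finset.smul_sum, Finset.sum_sub_distrib, smul_sub,
        (hσP _).1, (hσP _).2]
      abel
    rw [h0]
    exact T.L.zero_mem

/-- The flattening of `Fin g → ℂ × ℂ`. -/
def flat {g : ℕ} (P : Fin g → ℂ × ℂ) : Fin (g + g) → ℂ :=
  Fin.append (fun a => (P a).1) (fun a => (P a).2)

lemma flat_map {g : ℕ} (σ : ℂ → ℂ) (P : Fin g → ℂ × ℂ) :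
    (fun i => σ (flat P i)) = flat fun a => (σ (P a).1, σ (P a).2) := by
  funext i
  refine Fin.addCases (fun a => ?_) (fun a => ?_) i
  · simp only [flat, Fin.append_left]
  · simp only [flat, Fin.append_right]

end Sum_aux

open Sum_aux in
theorem tSum : StmtGA1 → S_Om → S_Inv → S_Cnt → S_Eqv → S_Sum := by
  intro hGA hOm hInv hCnt hEqv T m r Z t b γ hb ht hγ κ hκ p s A hts hAfin hAalg hmod v hv
  have hm : m ≠ 0 := by
    have := hb.1
    omega
  obtain ⟨P, hP, hPq⟩ := base hOm m r b t hb ht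
  choose q hq using hPq
  have hPalg : ∀ a, AlgO s (P a).1 ∧ AlgO s (P a).2 := fun a => algO_base hm hts (hP.on a) (hq a)
  obtain ⟨n, Q, w, hn, hQ, hw, hsum⟩ := (hInv m r b t hb ht P hP).1 (κ v)
  -- `Q` is in the set `S`
  set S : Set (Fin (Fintype.card (Ix m b)) → ℂ × ℂ) := {P' | Ind m b t P' ∧
    Rt T (∑ a, (γ.α (P' a).1 (P' a).2 - γ.α (P a).1 (P a).2))} with hSdef
  have hQS : Q ∈ S := by
    refine ⟨hQ, ?_⟩
    choose l hl hκl using fun a => hκ (P a) (Q a) (w a) (hw a)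
    refine rt_cancel hn ?_
    have h1 : n • ∑ a, (γ.α (Q a).1 (Q a).2 - γ.α (P a).1 (P a).2) = v + n • ∑ a, l a := by
      apply κ.injective
      rw [map_add, map_nsmul, map_nsmul, map_sum, map_sum, ← hsum, ← smul_add,
        ← Finset.sum_add_distrib]
      congr 1
      refine Finset.sum_congr rfl fun a _ => ?_
      rw [← hκl a]
      abel
    rw [h1]
    refine rt_add hv (rt_of_in ?_)
    exact T.L.nsmul_mem (T.L.sum_mem fun a _ => hl a) n
  have hScount : S.Countable := by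
    have h1 : S ⊆ ⋃ u ∈ {u : T.V | Rt T u}, {P' : Fin (Fintype.card (Ix m b)) → ℂ × ℂ |
        Ind m b t P' ∧ In T (∑ a, γ.α (P' a).1 (P' a).2 - (u + ∑ a, γ.α (P a).1 (P a).2))} := by
      rintro P' ⟨hP', hR⟩
      refine Set.mem_iUnion₂.mpr ⟨_, hR, hP', ?_⟩
      have h0 : ∑ a, γ.α (P' a).1 (P' a).2 -
          (∑ a, (γ.α (P' a).1 (P' a).2 - γ.α (P a).1 (P a).2) + ∑ a, γ.α (P a).1 (P a).2) = 0 := by
        rw [Finset.sum_sub_distrib]
        abel
      rw [h0]
      exact T.L.zero_mem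
    refine Set.Countable.mono h1 ?_
    refine Set.Countable.biUnion (rt_countable T) fun u _ => ?_
    exact hCnt T m r t b γ hb ht κ hκ _
  -- the fixed set
  set A' : Set ℂ := A ∪ Set.range (flat P) with hA'
  have hA'fin : A'.Finite := hAfin.union (Set.finite_range _)
  have hA'alg : ∀ a ∈ A', AlgO s a := by
    rintro a (ha | ⟨i, rfl⟩)
    · exact hAalg a ha
    · refine Fin.addCases (fun a => ?_) (fun a => ?_) i
      · simp only [flat, Fin.append_left]
        exact (hPalg a).1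
      · simp only [flat, Fin.append_right]
        exact (hPalg a).2
  have hstab : ∀ σ ∈ Fix s A', ∀ z ∈ flat '' S, (fun i => σ (z i)) ∈ flat '' S := by
    rintro σ hσ z ⟨P', hP', rfl⟩
    rw [flat_map]
    refine ⟨_, ?_, rfl⟩
    have hσA : σ ∈ Fix s A := ⟨hσ.1, fun a ha => hσ.2 a (Or.inl ha)⟩
    have hσt : ∀ j, σ (t j) = t j := fun j => fix_mem hσ (hts j)
    have hE := hEqv m r t b σ hσt
    refine ⟨hE.2 P' hP'.1, ?_⟩
    refine stab hγ hmod hσA hP.on hP'.1.on (fun a => hE.1 _ (hP'.1.on a)) (fun a => ?_) hP'.2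
    have h1 : flat P (Fin.castAdd _ a) = (P a).1 := by simp only [flat, Fin.append_left]
    have h2 : flat P (Fin.natAdd _ a) = (P a).2 := by simp only [flat, Fin.append_right]
    exact ⟨by rw [← h1]; exact hσ.2 _ (Or.inr ⟨_, rfl⟩), by rw [← h2]; exact hσ.2 _ (Or.inr ⟨_, rfl⟩)⟩
  have hQalg : ∀ a, AlgO s (Q a).1 ∧ AlgO s (Q a).2 := by
    have h := hGA p _ s A' hA'fin hA'alg (flat '' S) (hScount.image _) hstab (flat Q) ⟨Q, hQS, rfl⟩
    intro a
    have h1 := h (Fin.castAdd _ a)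
    have h2 := h (Fin.natAdd _ a)
    simp only [flat, Fin.append_left, Fin.append_right] at h1 h2
    exact ⟨h1, h2⟩
  refine ⟨n * Fintype.card (Ix m b), fun i => P (finProdFinEquiv.symm i).2,
    fun i => Q (finProdFinEquiv.symm i).2, fun i => w (finProdFinEquiv.symm i).2, fun i => ?_, ?_⟩
  · exact ⟨(hPalg _).1, (hPalg _).2, (hQalg _).1, (hQalg _).2, hw _⟩
  · rw [← hsum, Equiv.sum_comp finProdFinEquiv.symm (fun x => w x.2), Fintype.sum_prod_type]
    simp only [Finset.sum_const, Finset.card_univ, Fintype.card_fin]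

end TATE.TO
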