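import Pool.Agent.Lib.TATE.Iface2
import Pool.Agent.Lib.TATE.TO.Om
import Pool.Agent.Lib.TATE.TO.Br
import Pool.Agent.Lib.TATE.TO.Inv
import Pool.Agent.Lib.TATE.TO.Cnt
import Pool.Agent.Lib.TATE.TO.Eqv
import Pool.Agent.Lib.TATE.TO.Sum

/-! # TATE/TO: torsion points are exact sums of integrals between algebraic points -/

set_option autoImplicit false

namespace TATE.TO

theorem tTO : StmtGA1 → StmtTO := by
  intro h1 T m r Z t b γ hm ht _ _ hM κ _ _ hκ p s A hA hAo hj hmod v hv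
  obtain ⟨N, Q', Q, w, h, hs⟩ := tSum h1 tOm (tInv tBr) (tCnt (tInv tBr)) tEqv T m r Z t b γ hm ht
    hM κ hκ p s A hj hA hAo hmod v hv
  exact ⟨N, Q', Q, w, fun a => ⟨(h a).1, (h a).2.1, (h a).2.2.1, (h a).2.2.2.1⟩,
    fun a => (h a).2.2.2.2, hs⟩

end TATE.TO
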