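import Pool.Agent.Lib.TATE.Stmt

/-!
# PROJECT TATE, package TORS (helper59): torsion points are exact sums of integrals between algebraic points

Every module: file `TATE/TO/Xyz.lean`, `theorem tXyz : S_Xyz`, namespace `TATE.TO` (before it
`open HC HC.CC SEJ Topology Metric`), import `Pool.Agent.Lib.TATE.TO.Spec` and the proved modules you want. If the
docstring says `From S_A` the theorem is `tXyz : S_A → S_Xyz`. Auxiliary lemmas in `namespace TATE.TO.Xyz_aux`.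
-/

set_option autoImplicit false

open Topology Metric HC HC.CC SEJ

noncomputable section

namespace TATE.TO

/-- `dim V` points of the curve with linearly independent values of the forms. -/
structure Ind (m : ℕ) {r : ℕ} (b : Fin (r + 1) → ℕ) (t : Fin (r + 1) → ℂ)
    (P : Fin (Fintype.card (Ix m b)) → ℂ × ℂ) : Prop where
  on : ∀ a, P a ∈ Pts m b t
  li : LinearIndependent ℂ fun a => om m b t (P a)

/-- **Om**: THE VALUES OF THE FORMS SPAN. PROOF. If the span is not `⊤` a nonzero linear form `∑_p c_p v_p` kills all these values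
(`Submodule.exists_le_ker_of_lt_top`). For `x ∈ A`, `x ∉ range t`, `y ^ m = ∏ (x - t_j) ^ b_j ≠ 0` (there is such `y`); the points
`(x, ζ^k y)`, `ζ = ze m 1`, `k < m`, are in `Pts`: `∑_u ζ^(k u) y^u (∑_(ch p = u) c_p x^(ex p) / ∏_j (x - t_j)^(1 + u b_j / m)) = 0` for
all `k`, so every `u`-part is `0` (orthogonality of the characters `k ↦ ζ^(k u)`, `u < m`, or Vandermonde); so the polynomial
`∑_(ch p = u) c_p X^(ex p)` has infinitely many zeros: all `c_p = 0`. Compare SE/CR/Crd.lean. -/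
def S_Om : Prop := ∀ (m r : ℕ) (b : Fin (r + 1) → ℕ) (t : Fin (r + 1) → ℂ), Cvb m b →
  Function.Injective t → ∀ A : Set ℂ, A.Infinite →
  Submodule.span ℂ {v | ∃ P ∈ Pts m b t, P.1 ∈ A ∧ v = om m b t P} = ⊤

/-- **Br**: LOCAL BRANCH AND LOCAL INTEGRAL. PROOF. `f x = ∏ (x - t_j) ^ b_j` has no zero on a ball around `P.1` which avoids
`range t`; on a smaller ball `|f x / f P.1 - 1| < 1`, `η x = P.2 * (f x / f P.1) ^ (1 / m : ℂ)` (principal branch) is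
holomorphic, `η ^ m = f`, `η P.1 = P.2`. The function `x ↦ om m b t (x, η x) p` is holomorphic on the ball, so it has a primitive `V p`
with `V p P.1 = 0` (`DifferentiableOn.isExactOn_ball` or the like, or `V x = ∫_0^1 (x - P.1) om(P.1 + u (x - P.1), …) du`), and
`∫_0^1 (x - P.1) om(…) du = V x` (`intervalIntegral.integral_eq_sub_of_hasDerivAt` for `u ↦ V (P.1 + u (x - P.1))`):
`Itg.step (Itg.refl P) (Seg P (x, η x) (V x))`; the function `y : ℝ → ℂ` in `Seg` has to be continuous on `ℝ`: take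
`y u = η (P.1 + (max 0 (min 1 u)) (x - P.1))`. Last statement: `q.2 ^ m = η(q.1) ^ m`, so `q.2 = ξ η(q.1)`, `ξ ^ m = 1`; near `P` this
gives `ξ = 1` (finitely many `ξ`, `P.2 ≠ 0`, continuity of `η`). -/
def S_Br : Prop := ∀ (m r : ℕ) (b : Fin (r + 1) → ℕ) (t : Fin (r + 1) → ℂ), Cvb m b →
  Function.Injective t → ∀ P ∈ Pts m b t, ∃ (ε : ℝ) (η : ℂ → ℂ) (V : ℂ → (Ix m b → ℂ)), 0 < ε ∧
    η P.1 = P.2 ∧ DifferentiableOn ℂ η (ball P.1 ε) ∧ V P.1 = 0 ∧
    (∀ x ∈ ball P.1 ε, (x, η x) ∈ Pts m b t ∧ HasDerivAt V (om m b t (x, η x)) x ∧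
      Itg m b t P (x, η x) (V x)) ∧
    ∀ q ∈ Pts m b t, dist q P < ε → q.2 = η q.1

/-- **Inv**: INVERSE FUNCTION THEOREM. From `S_Br`. PROOF. `g = card (Ix m b)`, `ε_a`, `η_a`, `V_a` from `S_Br` at `P a`;
`G (x) = ∑ V_a (x_a)` on the product of the balls in `Fin g → ℂ`, `G (x₀) = 0` at `x₀ = (P a).1`. `V_a` is holomorphic, so `C^1`: `G` is
strictly differentiable at `x₀` with the derivative `h ↦ ∑ h_a • om (P a)`, an isomorphism onto `Ix m b → ℂ` (`g` independent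
vectors). (1) `HasStrictFDerivAt.map_nhds_eq_of_equiv`: the image of every neighbourhood of `x₀` is a neighbourhood of `0`; take
`n` with `v / n` in it; near `x₀` the vectors `om (x_a, η_a x_a)` are still independent (continuous, being `deriv V_a` of an analytic
function; `isOpen_setOf_linearIndependent`). (2) For `Q` near `P`, `Q a ∈ Pts`: `Q a = (x, η_a x)`, `w a = V_a x`; `G` is continuous, and
injective near `x₀` (`HasStrictFDerivAt` with an invertible derivative: `toOpenPartialHomeomorph` or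
`HasStrictFDerivAt.injOn…`), `G (x₀) = 0`. -/
def S_Inv : Prop := ∀ (m r : ℕ) (b : Fin (r + 1) → ℕ) (t : Fin (r + 1) → ℂ), Cvb m b →
  Function.Injective t → ∀ P, Ind m b t P →
  (∀ v : Ix m b → ℂ, ∃ (n : ℕ) (Q : Fin (Fintype.card (Ix m b)) → ℂ × ℂ)
    (w : Fin (Fintype.card (Ix m b)) → (Ix m b → ℂ)), n ≠ 0 ∧ Ind m b t Q ∧
    (∀ a, Itg m b t (P a) (Q a) (w a)) ∧ n • ∑ a, w a = v) ∧
  ∀ ε > 0, ∃ U ∈ 𝓝 P, ∀ Q ∈ U, (∀ a, Q a ∈ Pts m b t) →
    ∃ w : Fin (Fintype.card (Ix m b)) → (Ix m b → ℂ), (∀ a, Itg m b t (P a) (Q a) (w a)) ∧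
      ‖∑ a, w a‖ < ε ∧ (∑ a, w a = 0 → Q = P)

/-- **Cnt**: COUNTABLY MANY SOLUTIONS. From `S_Inv`. `κ` is the isomorphism of `StmtFA3`. PROOF. Let `P` be in the set `S`. `T.L` is
discrete, `κ` is continuous (finite dimension): there is `ε > 0` such that `l ∈ T.L`, `‖κ l‖ < ε` gives `l = 0`. `U` from `S_Inv` (2).
For `P' ∈ S ∩ U`: `w a`, `κ (al P'_a - al P_a) - w a = κ l_a` (`hκ`), `∑ al P'_a - ∑ al P_a ∈ T.L`, so `∑ w a = κ l`, `‖κ l‖ < ε`,
`∑ w a = 0`, `P' = P`. So every point of `S` is isolated in `S`: the subspace is discrete and second countable, hence countable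
(`countable_of_Lindelof_of_discrete`). -/
def S_Cnt : Prop := ∀ (T : AV) (m r : ℕ) (t : Fin (r + 1) → ℂ) (b : Fin (r + 1) → ℕ) (γ : Cur T),
  Cvb m b → Function.Injective t → ∀ κ : T.V ≃ₗ[ℂ] (Ix m b → ℂ),
  (∀ P Q v, Itg m b t P Q v → ∃ l, In T l ∧ κ (γ.α Q.1 Q.2 - γ.α P.1 P.2) - v = κ l) →
  ∀ w : T.V, {P : Fin (Fintype.card (Ix m b)) → ℂ × ℂ | Ind m b t P ∧
    In T (∑ a, γ.α (P a).1 (P a).2 - w)}.Countable

/-- **Eqv**: INDEPENDENT POINTS ARE STABLE. PROOF. `t j` is fixed by `σ`, so `σ P ∈ Pts`, and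
`om m b t (σ P) p = σ (om m b t P p)`. `LinearIndependent`: `∑ c_a om (σ P_a) = 0`, apply `σ⁻¹` to all coordinates:
`∑ σ⁻¹(c_a) om (P_a) = 0`. -/
def S_Eqv : Prop := ∀ (m r : ℕ) (t : Fin (r + 1) → ℂ) (b : Fin (r + 1) → ℕ) (σ : ℂ ≃+* ℂ),
  (∀ j, σ (t j) = t j) → (∀ P ∈ Pts m b t, (σ P.1, σ P.2) ∈ Pts m b t) ∧
    ∀ P, Ind m b t P → Ind m b t fun a => (σ (P a).1, σ (P a).2)

/-- **Sum**: RATIONAL VECTORS ARE EXACT SUMS OF INTEGRALS BETWEEN ALGEBRAIC POINTS. From `StmtGA1`, `S_Om`, `S_Inv`, `S_Cnt`, `S_Eqv`.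
PROOF. `g = card (Ix m b)`. `S_Om` with `A = ` the rational numbers: a basis `om (P a)`, `P a ∈ Pts`, `(P a).1` rational, so the
coordinates of `P a` are algebraic over `ℚ(s)` (`y ^ m = ∏ (x - t_j) ^ b_j`, `t j ∈ ℚ(s)`). `S_Inv` (1) for `κ v`: `n`, `Q`, `w`. The `Q a` are
algebraic: let `S` be the set of the `P'` with `Ind m b t P'` and `Rt T (∑ (α P'_a - α P_a))`. `Q ∈ S`: `n ∑ w a = κ v`, `Rt T v`, `hκ`.
`S` is countable: it is the union over the countably many `u` with `Rt T u` (`T.L` is countable) of the sets `S_Cnt` for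
`w = u + ∑ α P_a`. `S` is stable under `σ ∈ Fix s A'`, `A' = A ∪ ` the coordinates of the `P a`: `S_Eqv`; `k • ∑ (α P'_a - α P_a) ∈ T.L`,
`k ≠ 0`, gives `k • ∑ (α (σ P'_a) - α P_a) ∈ T.L` by `IsMod` (`GR` with the `2 g` points `P'_a`, `P_a` and the coefficients
`k`, `-k`; the points of `γ` are those of `Pts`: `IsMp.P`, `IsMp.S`). Flatten `Fin g → ℂ × ℂ` to `Fin (2 * g) → ℂ` and apply `StmtGA1`. The family
of the conclusion: `n` copies of `(P a, Q a, w a)`, indexed by `Fin (n * g)`. -/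
def S_Sum : Prop := ∀ (T : AV) (m r : ℕ) (Z : T.V → T.V) (t : Fin (r + 1) → ℂ)
  (b : Fin (r + 1) → ℕ) (γ : Cur T), Cvb m b → Function.Injective t → IsMp T m Z t b γ →
  ∀ κ : T.V ≃ₗ[ℂ] (Ix m b → ℂ),
  (∀ P Q v, Itg m b t P Q v → ∃ l, In T l ∧ κ (γ.α Q.1 Q.2 - γ.α P.1 P.2) - v = κ l) →
  ∀ (p : ℕ) (s : Fin p → ℂ) (A : Set ℂ), (∀ j, t j ∈ IntermediateField.adjoin ℚ (Set.range s)) →
  A.Finite → (∀ a ∈ A, AlgO s a) → IsMod s γ A → ∀ v, Rt T v → ∃ (N : ℕ) (Q' Q : Fin N → ℂ × ℂ) (w : Fin N → (Ix m b → ℂ)),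
    (∀ a, AlgO s (Q' a).1 ∧ AlgO s (Q' a).2 ∧ AlgO s (Q a).1 ∧ AlgO s (Q a).2 ∧
      Itg m b t (Q' a) (Q a) (w a)) ∧ ∑ a, w a = κ v

end TATE.TO
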